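import Mathlib

set_option autoImplicit false

namespace Pool.Agent.Results.MP_4cdc07_co.NoMaxMultiplicity

open Finset

/-- `F` is APN: for every `a ≠ 0` and every `b` the equation `F x + F (x + a) = b` has at most
two solutions. -/
def IsAPN {n : ℕ} (F : (Fin n → ZMod 2) → (Fin n → ZMod 2)) : Prop :=
  ∀ a : Fin n → ZMod 2, a ≠ 0 → ∀ b : Fin n → ZMod 2,
    (univ.filter fun x : Fin n → ZMod 2 => F x + F (x + a) = b).card ≤ 2

/-- The graph `{(x, F x)}` of `F`. -/
def graph {n : ℕ} (F : (Fin n → ZMod 2) → (Fin n → ZMod 2)) :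
    Finset ((Fin n → ZMod 2) × (Fin n → ZMod 2)) :=
  univ.image fun x => (x, F x)

/-- The multiplicity of `p` with respect to `S`: the number of three-element subsets of `S`
whose elements add up to `p`. -/
def mult {n : ℕ} (S : Finset ((Fin n → ZMod 2) × (Fin n → ZMod 2)))
    (p : (Fin n → ZMod 2) × (Fin n → ZMod 2)) : ℕ :=
  ((S.powersetCard 3).filter fun T => ∑ t ∈ T, t = p).card

/-- The Walsh transform `W_F(u, v) = ∑ₓ (-1)^(u·x + v·F(x))`. -/
def walsh {n : ℕ} (F : (Fin n → ZMod 2) → (Fin n → ZMod 2)) (u v : Fin n → ZMod 2) : ℤ :=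
  ∑ x : Fin n → ZMod 2, (-1 : ℤ) ^ (u ⬝ᵥ x + v ⬝ᵥ F x).val

/-- `F` is plateaued: for each `v ≠ 0` there is `l ≥ 0` with `W_F(u, v) ∈ {0, l, -l}` for
all `u`. -/
def IsPlateaued {n : ℕ} (F : (Fin n → ZMod 2) → (Fin n → ZMod 2)) : Prop :=
  ∀ v : Fin n → ZMod 2, v ≠ 0 → ∃ l : ℝ, 0 ≤ l ∧ ∀ u : Fin n → ZMod 2,
    (walsh F u v : ℝ) = 0 ∨ (walsh F u v : ℝ) = l ∨ (walsh F u v : ℝ) = -l

/-- The sign character of `ZMod 2`. -/
def sg (a : ZMod 2) : ℤ := (-1 : ℤ) ^ a.val

lemma sg_add (a b : ZMod 2) : sg (a + b) = sg a * sg b := by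
  revert a b; decide

lemma sg_sq (a : ZMod 2) : sg a * sg a = 1 := by
  revert a; decide

lemma add_self' {n : ℕ} (x : Fin n → ZMod 2) : x + x = 0 := by
  funext i; simp only [Pi.add_apply, Pi.zero_apply]; exact CharTwo.add_self_eq_zero _

/-- Orthogonality of characters. -/
lemma orth {n : ℕ} (z : Fin n → ZMod 2) :
    ∑ u : Fin n → ZMod 2, sg (u ⬝ᵥ z) = if z = 0 then (2 : ℤ) ^ n else 0 := by
  split_ifs with h
  · subst h
    simp [sg, Finset.card_univ]
  · obtain ⟨i, hi⟩ := Function.ne_iff.1 h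
    have hi1 : z i = 1 := by
      have : ∀ a : ZMod 2, a ≠ 0 → a = 1 := by decide
      exact this _ hi
    have hkey : ∑ u : Fin n → ZMod 2, sg (u ⬝ᵥ z) = ∑ u : Fin n → ZMod 2, -sg (u ⬝ᵥ z) := by
      refine Fintype.sum_equiv (Equiv.addRight (Pi.single i (1 : ZMod 2))) _ _ fun u => ?_
      have h1 : (u + Pi.single i (1 : ZMod 2)) ⬝ᵥ z = u ⬝ᵥ z + 1 := by
        rw [add_dotProduct, single_one_dotProduct, hi1]
      rw [Equiv.coe_addRight, h1, sg_add]
      have : sg 1 = -1 := by decide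
      rw [this]; ring
    rw [Finset.sum_neg_distrib] at hkey
    linarith

/-- Parseval's identity. -/
lemma parseval {n : ℕ} (F : (Fin n → ZMod 2) → (Fin n → ZMod 2)) (v : Fin n → ZMod 2) :
    ∑ u : Fin n → ZMod 2, walsh F u v ^ 2 = (2 : ℤ) ^ n * 2 ^ n := by
  have h1 : ∀ u : Fin n → ZMod 2, walsh F u v ^ 2 =
      ∑ x : Fin n → ZMod 2, ∑ y : Fin n → ZMod 2,
        sg (v ⬝ᵥ F x) * sg (v ⬝ᵥ F y) * sg (u ⬝ᵥ (x + y)) := by
    intro u
    have h2 : walsh F u v = ∑ x : Fin n → ZMod 2, sg (v ⬝ᵥ F x) * sg (u ⬝ᵥ x) := by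
      refine Finset.sum_congr rfl fun x _ => ?_
      change sg (u ⬝ᵥ x + v ⬝ᵥ F x) = _
      rw [sg_add, mul_comm]
    rw [h2, sq, Finset.sum_mul_sum]
    refine Finset.sum_congr rfl fun x _ => Finset.sum_congr rfl fun y _ => ?_
    rw [dotProduct_add, sg_add]; ring
  calc ∑ u : Fin n → ZMod 2, walsh F u v ^ 2
      = ∑ u : Fin n → ZMod 2, ∑ x : Fin n → ZMod 2, ∑ y : Fin n → ZMod 2,
        sg (v ⬝ᵥ F x) * sg (v ⬝ᵥ F y) * sg (u ⬝ᵥ (x + y)) :=
        Finset.sum_congr rfl fun u _ => h1 u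
    _ = ∑ x : Fin n → ZMod 2, ∑ y : Fin n → ZMod 2, ∑ u : Fin n → ZMod 2,
        sg (v ⬝ᵥ F x) * sg (v ⬝ᵥ F y) * sg (u ⬝ᵥ (x + y)) := by
        rw [Finset.sum_comm]
        exact Finset.sum_congr rfl fun x _ => Finset.sum_comm
    _ = ∑ x : Fin n → ZMod 2, ∑ y : Fin n → ZMod 2,
        (if x = y then (2 : ℤ) ^ n else 0) := by
        refine Finset.sum_congr rfl fun x _ => Finset.sum_congr rfl fun y _ => ?_
        rw [← Finset.mul_sum, orth]
        by_cases hxy : x = y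
        · subst hxy
          rw [if_pos rfl, if_pos (add_self' x), sg_sq, one_mul]
        · have : x + y ≠ 0 := by
            intro h
            apply hxy
            calc x = x + (y + y) := by rw [add_self' y, add_zero]
              _ = (x + y) + y := by rw [add_assoc]
              _ = y := by rw [h, zero_add]
          rw [if_neg hxy, if_neg this, mul_zero]
    _ = _ := by simp [Finset.card_univ]

/-- For a plateaued function in at least three variables, the values add up to zero. -/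
lemma sum_eq_zero_of_plateaued {n : ℕ} (hn : 3 ≤ n) (F : (Fin n → ZMod 2) → (Fin n → ZMod 2))
    (hF : IsPlateaued F) : ∑ x, F x = 0 := by
  by_contra hne
  obtain ⟨i, hi⟩ := Function.ne_iff.1 hne
  set v : Fin n → ZMod 2 := Pi.single i 1 with hv
  have hv0 : v ≠ 0 := by
    intro h
    have := congrFun h i
    rw [hv, Pi.single_eq_same] at this
    exact one_ne_zero this
  have hdot : ∀ y : Fin n → ZMod 2, v ⬝ᵥ y = y i := fun y => by
    rw [hv, single_one_dotProduct]
  set A := univ.filter fun x : Fin n → ZMod 2 => F x i = 1 with hA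
  have hsumi : ∑ x, F x i = 1 := by
    have h2 : ∀ a : ZMod 2, a ≠ 0 → a = 1 := by decide
    have := h2 _ hi
    rwa [Finset.sum_apply] at this
  have hcardA : (A.card : ZMod 2) = 1 := by
    rw [← hsumi, hA, Finset.card_filter, Nat.cast_sum]
    refine Finset.sum_congr rfl fun x _ => ?_
    have h2 : ∀ a : ZMod 2, a = 0 ∨ a = 1 := by decide
    rcases h2 (F x i) with h | h <;> simp [h]
  have hodd : Odd A.card := by
    rw [← ZMod.natCast_eq_one_iff_odd]; exact hcardA
  have hW0 : walsh F 0 v = 2 ^ n - 2 * (A.card : ℤ) := by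
    have h1 : ∀ x : Fin n → ZMod 2, (-1 : ℤ) ^ ((0 : Fin n → ZMod 2) ⬝ᵥ x + v ⬝ᵥ F x).val =
        1 - 2 * (if F x i = 1 then 1 else 0) := by
      intro x
      rw [zero_dotProduct, zero_add, hdot]
      have h2 : ∀ a : ZMod 2, (-1 : ℤ) ^ a.val = 1 - 2 * (if a = 1 then 1 else 0) := by decide
      exact h2 _
    rw [walsh, Finset.sum_congr rfl fun x _ => h1 x, Finset.sum_sub_distrib, ← Finset.mul_sum,
      hA, Finset.card_filter]
    simp [Finset.card_univ]
  obtain ⟨k, hk⟩ := hodd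
  obtain ⟨m, rfl⟩ : ∃ m, n = m + 3 := ⟨n - 3, by omega⟩
  -- `W_F(0, v) = 2 c` with `c` odd
  set c : ℤ := 2 ^ (m + 2) - (2 * k + 1) with hc
  have hW0' : walsh F 0 v = 2 * c := by
    rw [hW0, hk, hc]; push_cast; ring
  have hcodd : Odd c := by
    refine ⟨2 ^ (m + 1) - k - 1, ?_⟩
    rw [hc]; ring
  have hc0 : c ≠ 0 := by
    rintro h
    rw [h] at hcodd
    exact absurd hcodd (by decide)
  obtain ⟨l, hl0, hl⟩ := hF v hv0
  have hlsq : l ^ 2 = ((2 * c : ℤ) : ℝ) ^ 2 := by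
    rcases hl 0 with h | h | h
    · rw [hW0'] at h
      exfalso
      have : (2 * c : ℤ) = 0 := by exact_mod_cast h
      omega
    · rw [← h, hW0']
    · rw [← hW0', h]; ring
  have hsq : ∀ u, walsh F u v ^ 2 = 0 ∨ walsh F u v ^ 2 = (2 * c) ^ 2 := by
    intro u
    rcases hl u with h | h | h
    · left
      have : walsh F u v = 0 := by exact_mod_cast h
      rw [this]; ring
    · right
      have : (walsh F u v : ℝ) ^ 2 = ((2 * c : ℤ) : ℝ) ^ 2 := by rw [h, hlsq]
      exact_mod_cast this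
    · right
      have : (walsh F u v : ℝ) ^ 2 = ((2 * c : ℤ) : ℝ) ^ 2 := by rw [h, neg_sq, hlsq]
      exact_mod_cast this
  set N := univ.filter fun u : Fin (m + 3) → ZMod 2 => walsh F u v ^ 2 = (2 * c) ^ 2 with hN
  have hpars : (N.card : ℤ) * (2 * c) ^ 2 = 2 ^ (m + 3) * 2 ^ (m + 3) := by
    rw [← parseval F v, hN, Finset.card_filter, Nat.cast_sum, Finset.sum_mul]
    refine Finset.sum_congr rfl fun u _ => ?_
    rcases hsq u with h | h
    · rw [h]
      have : ¬ ((0 : ℤ) = (2 * c) ^ 2) := by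
        intro h'
        have := pow_eq_zero_iff (two_ne_zero) |>.1 h'.symm
        omega
      rw [if_neg this]; simp
    · rw [if_pos h, h]; simp
  have hNcard : N.card ≤ 2 ^ (m + 3) := by
    calc N.card ≤ (univ : Finset (Fin (m + 3) → ZMod 2)).card := Finset.card_filter_le _ _
      _ = 2 ^ (m + 3) := by simp [Finset.card_univ]
  -- `c ^ 2` is odd and divides a power of two
  have hdvd : c ^ 2 ∣ 2 ^ (2 * (m + 3)) := by
    refine ⟨4 * N.card, ?_⟩
    rw [two_mul, pow_add, ← hpars]; ring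
  have hcop : IsCoprime (c ^ 2) (2 ^ (2 * (m + 3))) := by
    apply IsCoprime.pow
    rw [Int.isCoprime_iff_gcd_eq_one]
    obtain ⟨t, ht⟩ := hcodd
    have : IsCoprime c 2 := ⟨1, -t, by rw [ht]; ring⟩
    exact Int.isCoprime_iff_gcd_eq_one.1 this
  have hunit : IsUnit (c ^ 2) := hcop.isUnit_of_dvd' dvd_rfl hdvd
  have hc1 : c ^ 2 = 1 := by
    rcases Int.isUnit_iff.1 hunit with h | h
    · exact h
    · nlinarith [sq_nonneg c]
  have hfin : (N.card : ℤ) * 4 = 2 ^ (m + 3) * 2 ^ (m + 3) := by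
    rw [← hpars, mul_pow, hc1]; ring
  have hNc : (N.card : ℤ) ≤ 2 ^ (m + 3) := by exact_mod_cast hNcard
  have hpos : (1 : ℤ) ≤ 2 ^ m := one_le_pow₀ (by norm_num)
  have h8 : (2 : ℤ) ^ (m + 3) = 8 * 2 ^ m := by ring
  rw [h8] at hfin hNc
  nlinarith


lemma add_self_pair {n : ℕ} (g : (Fin n → ZMod 2) × (Fin n → ZMod 2)) : g + g = 0 := by
  ext1
  · exact add_self' g.1
  · exact add_self' g.2

lemma mem_graph {n : ℕ} (F : (Fin n → ZMod 2) → (Fin n → ZMod 2))
    (g : (Fin n → ZMod 2) × (Fin n → ZMod 2)) : g ∈ graph F ↔ g.2 = F g.1 := by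
  simp only [graph, mem_image, mem_univ, true_and]
  constructor
  · rintro ⟨x, rfl⟩; rfl
  · intro h; exact ⟨g.1, by rw [← h]⟩

lemma card_graph {n : ℕ} (F : (Fin n → ZMod 2) → (Fin n → ZMod 2)) :
    (graph F).card = 2 ^ n := by
  rw [graph, card_image_of_injective]
  · simp [Finset.card_univ]
  · intro x y h; exact (Prod.ext_iff.1 h).1

/-- The APN property in Sidon form. -/
lemma sidon {n : ℕ} {F : (Fin n → ZMod 2) → (Fin n → ZMod 2)} (hF : IsAPN F)
    {s t s' t' : (Fin n → ZMod 2) × (Fin n → ZMod 2)} (hs : s ∈ graph F) (ht : t ∈ graph F)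
    (hs' : s' ∈ graph F) (ht' : t' ∈ graph F) (hst : s ≠ t) (h : s + t = s' + t') :
    s' = s ∨ s' = t := by
  rw [mem_graph] at hs ht hs' ht'
  have h1 : s.1 + t.1 = s'.1 + t'.1 := congrArg Prod.fst h
  have h2 : F s.1 + F t.1 = F s'.1 + F t'.1 := by
    rw [← hs, ← ht, ← hs', ← ht']; exact congrArg Prod.snd h
  have hne : s.1 ≠ t.1 := fun h' => hst (Prod.ext h' (by rw [hs, ht, h']))
  have ha : s.1 + t.1 ≠ 0 := by
    intro h'
    apply hne
    calc s.1 = s.1 + (t.1 + t.1) := by rw [add_self', add_zero]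
      _ = (s.1 + t.1) + t.1 := by rw [add_assoc]
      _ = t.1 := by rw [h', zero_add]
  by_contra hcon
  push Not at hcon
  have hc1 : s'.1 ≠ s.1 := fun h' => hcon.1 (Prod.ext h' (by rw [hs, hs', h']))
  have hc2 : s'.1 ≠ t.1 := fun h' => hcon.2 (Prod.ext h' (by rw [ht, hs', h']))
  have e1 : s.1 + (s.1 + t.1) = t.1 := by rw [← add_assoc, add_self', zero_add]
  have e2 : t.1 + (s.1 + t.1) = s.1 := by
    rw [add_comm s.1 t.1, ← add_assoc, add_self', zero_add]
  have e3 : s'.1 + (s.1 + t.1) = t'.1 := by rw [h1, ← add_assoc, add_self', zero_add]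
  have hsub : ({s.1, t.1, s'.1} : Finset (Fin n → ZMod 2)) ⊆
      univ.filter fun x : Fin n → ZMod 2 => F x + F (x + (s.1 + t.1)) = F s.1 + F t.1 := by
    intro x hx
    simp only [mem_insert, mem_singleton] at hx
    rw [mem_filter]
    refine ⟨mem_univ _, ?_⟩
    rcases hx with rfl | rfl | rfl
    · rw [e1]
    · rw [e2, add_comm]
    · rw [e3, h2]
  have hcard : ({s.1, t.1, s'.1} : Finset (Fin n → ZMod 2)).card = 3 :=
    card_eq_three.2 ⟨s.1, t.1, s'.1, hne, hc1.symm, hc2.symm, rfl⟩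
  have := (card_le_card hsub).trans (hF (s.1 + t.1) ha (F s.1 + F t.1))
  omega

lemma sum_univ_vec {n : ℕ} (hn : 2 ≤ n) : ∑ x : Fin n → ZMod 2, x = 0 := by
  funext i
  rw [Finset.sum_apply, Pi.zero_apply]
  -- pair `x` with `x + e_j` for some `j ≠ i`
  obtain ⟨j, hj⟩ : ∃ j : Fin n, j ≠ i := by
    have : Nontrivial (Fin n) := Fin.nontrivial_iff_two_le.2 hn
    exact exists_ne i
  refine Finset.sum_involution (fun x _ => x + Pi.single j 1) ?_ ?_ ?_ ?_
  · intro x _
    rw [Pi.add_apply, Pi.single_eq_of_ne hj.symm, add_zero]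
    exact CharTwo.add_self_eq_zero _
  · intro x _ _ h
    have := congrFun h j
    rw [Pi.add_apply, Pi.single_eq_same] at this
    simp at this
  · intro x _; exact mem_univ _
  · intro x _
    rw [add_assoc, add_self', add_zero]

/-- The combinatorial core: if the values of an APN function add up to zero, then no point off the
graph has multiplicity above `(2^n - 1)/3 - 2`. -/
lemma core {n : ℕ} (hn : 2 ≤ n) (hev : Even n) (F : (Fin n → ZMod 2) → (Fin n → ZMod 2))
    (hF : IsAPN F) (hsum : ∑ x, F x = 0) (p : (Fin n → ZMod 2) × (Fin n → ZMod 2))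
    (hp : p ∉ graph F) : 3 * mult (graph F) p + 7 ≤ 2 ^ n := by
  set 𝒯 := ((graph F).powersetCard 3).filter fun T => ∑ t ∈ T, t = p with h𝒯
  have hmult : mult (graph F) p = 𝒯.card := rfl
  set g₀ : (Fin n → ZMod 2) × (Fin n → ZMod 2) := (p.1, F p.1) with hg₀
  have hg₀G : g₀ ∈ graph F := (mem_graph F _).2 rfl
  have hT : ∀ T ∈ 𝒯, T ⊆ graph F ∧ T.card = 3 ∧ ∑ t ∈ T, t = p := by
    intro T hT
    rw [h𝒯, mem_filter, mem_powersetCard] at hT
    exact ⟨hT.1.1, hT.1.2, hT.2⟩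
  -- decomposition of a triple with a marked element
  have hdec : ∀ T ∈ 𝒯, ∀ g ∈ T, ∃ s ∈ graph F, ∃ t ∈ graph F, s ≠ t ∧ T.erase g = {s, t} ∧
      g + (s + t) = p := by
    intro T hT' g hg
    obtain ⟨h1, h2, h3⟩ := hT T hT'
    have h4 : (T.erase g).card = 2 := by rw [card_erase_of_mem hg, h2]
    obtain ⟨s, t, hst, he⟩ := card_eq_two.1 h4
    have hs : s ∈ T.erase g := by rw [he]; simp
    have ht : t ∈ T.erase g := by rw [he]; simp
    refine ⟨s, h1 (mem_of_mem_erase hs), t, h1 (mem_of_mem_erase ht), hst, he, ?_⟩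
    rw [← h3, ← add_sum_erase T (fun t => t) hg, he, sum_pair hst]
  have hg₀T : ∀ T ∈ 𝒯, g₀ ∉ T := by
    intro T hT' hg
    obtain ⟨s, hs, t, ht, hst, -, h5⟩ := hdec T hT' g₀ hg
    rw [mem_graph] at hs ht
    have h6 : p.1 + (s.1 + t.1) = p.1 := congrArg Prod.fst h5
    have h7 : s.1 + t.1 = 0 := by simpa using h6
    have h8 : s.1 = t.1 := by
      calc s.1 = s.1 + (t.1 + t.1) := by rw [add_self', add_zero]
        _ = (s.1 + t.1) + t.1 := by rw [add_assoc]
        _ = t.1 := by rw [h7, zero_add]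
    exact hst (Prod.ext h8 (by rw [hs, ht, h8]))
  have hdisj : ∀ T ∈ 𝒯, ∀ T' ∈ 𝒯, T ≠ T' → Disjoint T T' := by
    intro T hT1 T' hT2 hne
    rw [disjoint_left]
    intro g hg hg'
    apply hne
    obtain ⟨s, hs, t, ht, hst, he, h5⟩ := hdec T hT1 g hg
    obtain ⟨s', hs', t', ht', hst', he', h5'⟩ := hdec T' hT2 g hg'
    have h6 : s + t = s' + t' := by
      have : g + (s + t) = g + (s' + t') := by rw [h5, h5']
      exact add_left_cancel this
    have h7 : T.erase g = T'.erase g := by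
      rw [he, he']
      rcases sidon hF hs ht hs' ht' hst h6 with h | h
      · subst h
        rw [add_left_cancel h6]
      · subst h
        have : s = t' := by
          rw [add_comm] at h6
          exact add_left_cancel h6
        rw [this, pair_comm]
    rw [← insert_erase hg, ← insert_erase hg', h7]
  set U := 𝒯.biUnion (fun T => T) with hU
  have hUcard : U.card = 3 * 𝒯.card := by
    rw [hU, card_biUnion hdisj, sum_congr rfl (fun T hT' => (hT T hT').2.1), sum_const,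
      smul_eq_mul, mul_comm]
  have hUsub : U ⊆ (graph F).erase g₀ := by
    intro g hg
    rw [hU, mem_biUnion] at hg
    obtain ⟨T, hT', hgT⟩ := hg
    rw [mem_erase]
    exact ⟨fun h => hg₀T T hT' (h ▸ hgT), (hT T hT').1 hgT⟩
  have hcardE : ((graph F).erase g₀).card = 2 ^ n - 1 := by
    rw [card_erase_of_mem hg₀G, card_graph]
  set R := (graph F).erase g₀ \ U with hR
  have hRcard : R.card + 3 * 𝒯.card = 2 ^ n - 1 := by
    rw [← hUcard, ← hcardE, hR, card_sdiff_add_card_eq_card hUsub]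
  have hUsum : ∑ g ∈ U, g = 𝒯.card • p := by
    rw [hU, sum_biUnion hdisj, sum_congr rfl (fun T hT' => (hT T hT').2.2), sum_const]
  have hGsum : ∑ g ∈ graph F, g = 0 := by
    rw [graph, sum_image (fun x _ y _ h => (Prod.ext_iff.1 h).1)]
    have h1 : ∑ x : Fin n → ZMod 2, ((x, F x) : (Fin n → ZMod 2) × (Fin n → ZMod 2)) =
        (∑ x : Fin n → ZMod 2, x, ∑ x, F x) := by
      rw [Prod.ext_iff]
      exact ⟨Prod.fst_sum, Prod.snd_sum⟩
    rw [h1, sum_univ_vec hn, hsum]; rfl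
  have htotal : g₀ + ((∑ g ∈ R, g) + 𝒯.card • p) = 0 := by
    rw [← hUsum, hR, sum_sdiff hUsub, add_sum_erase (graph F) (fun g => g) hg₀G, hGsum]
  -- `2^n = 3 q + 1`
  obtain ⟨m, rfl⟩ := hev
  have hpow : ∃ q, 2 ^ (m + m) = 3 * q + 1 := by
    have h1 : (2 : ℕ) ^ (m + m) = 4 ^ m := by rw [← two_mul, pow_mul]; norm_num
    rw [h1]
    clear * -
    induction m with
    | zero => exact ⟨0, by norm_num⟩
    | succ k ih =>
      obtain ⟨q, hq⟩ := ih
      exact ⟨4 * q + 1, by rw [pow_succ, hq]; ring⟩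
  obtain ⟨q, hq⟩ := hpow
  have hpeven : Even (2 ^ (m + m)) := by
    rw [Nat.even_pow]; exact ⟨even_two, by omega⟩
  obtain ⟨e, he⟩ := hpeven
  have htwo : ∀ k : ℕ, (k + k) • p = 0 := by
    intro k
    rw [add_nsmul, add_self_pair]
  rw [hmult]
  by_contra hcon
  push Not at hcon
  have hcases : R.card = 0 ∨ R.card = 3 := by omega
  rcases hcases with h0 | h3
  · -- all points are covered
    have hodd : ∃ k, 𝒯.card = (k + k) + 1 := ⟨(𝒯.card - 1) / 2, by omega⟩
    obtain ⟨k, hk⟩ := hodd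
    rw [card_eq_zero.1 h0, sum_empty, zero_add, hk, add_nsmul, htwo, zero_add, one_nsmul] at htotal
    apply hp
    have : p = g₀ := by
      calc p = (g₀ + g₀) + p := by rw [add_self_pair, zero_add]
        _ = g₀ + (g₀ + p) := by rw [add_assoc]
        _ = g₀ := by rw [htotal, add_zero]
    rw [this]; exact hg₀G
  · -- exactly one triple is left
    have heven : ∃ k, 𝒯.card = k + k := ⟨𝒯.card / 2, by omega⟩
    obtain ⟨k, hk⟩ := heven
    rw [hk, htwo, add_zero] at htotal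
    obtain ⟨r₁, r₂, r₃, h12, h13, h23, hRe⟩ := card_eq_three.1 h3
    have hr : ∀ r ∈ R, r ∈ graph F ∧ r ≠ g₀ := by
      intro r hr
      rw [hR, mem_sdiff, mem_erase] at hr
      exact ⟨hr.1.2, hr.1.1⟩
    have hr1 := hr r₁ (by rw [hRe]; simp)
    have hr2 := hr r₂ (by rw [hRe]; simp)
    have hr3 := hr r₃ (by rw [hRe]; simp)
    have hs3 : ∑ g ∈ R, g = r₁ + (r₂ + r₃) := by
      rw [hRe, sum_insert (by simp [h12, h13]), sum_pair h23]
    rw [hs3] at htotal
    have h4 : g₀ + r₁ = r₂ + r₃ := by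
      calc g₀ + r₁ = (g₀ + r₁) + ((r₂ + r₃) + (r₂ + r₃)) := by rw [add_self_pair, add_zero]
        _ = (g₀ + (r₁ + (r₂ + r₃))) + (r₂ + r₃) := by abel
        _ = r₂ + r₃ := by rw [htotal, zero_add]
    rcases sidon hF hg₀G hr1.1 hr2.1 hr3.1 hr1.2.symm h4 with h | h
    · exact hr2.2 h
    · exact h12 h.symm

/-- **Answer to Q1 (and hence Q2): no.** For even `n ≥ 4` and every plateaued APN function `F` in
`n` variables, no point off the graph of `F` has multiplicity above `(2^n - 1)/3 - 2`. -/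
theorem result : ∀ n : ℕ, Even n → 4 ≤ n → ∀ F : (Fin n → ZMod 2) → (Fin n → ZMod 2),
    IsAPN F → IsPlateaued F → ∀ p : (Fin n → ZMod 2) × (Fin n → ZMod 2), p ∉ graph F →
      (mult (graph F) p : ℚ) ≤ (2 ^ n - 1) / 3 - 2 := by
  intro n hev hn F hF hpl p hp
  have h := core (by omega) hev F hF (sum_eq_zero_of_plateaued (by omega) F hpl) p hp
  have h' : (3 : ℚ) * mult (graph F) p + 7 ≤ 2 ^ n := by exact_mod_cast h
  linarith

end Pool.Agent.Results.MP_4cdc07_co.NoMaxMultiplicity
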